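import Mathlib

/-!
# Pairwise intersecting convex hulls with finite triple intersections

For every `n ≥ 4` there are `n` points of the plane, no three collinear, with an admissible family
of `n + ⌊(n - 1) / 2⌋` subsets.  The points are the origin `O` and `p i = (i, i² + M)`,
`1 ≤ i ≤ n - 1`, with `M` large; the subsets are all `{O, p i}`, the angularly disjoint
triples `{O, p (2 j - 1), p (2 j)}`, and `{p 1, …, p (n - 1)}`.
-/

set_option autoImplicit false

open Finset

namespace Pool.Agent.Results.MP_a31168_co.ThreeHalves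

/-- The Euclidean plane (coordinates). -/
abbrev Plane := ℝ × ℝ

/-- The convex hull of a finite set of points. -/
def hull (S : Finset Plane) : Set Plane := convexHull ℝ (S : Set Plane)

/-- The admissible families: (1) every member is a subset of `P` with more than one and fewer than
`|P|` points, (2) the convex hulls of any two distinct members intersect, and (3) the convex hulls
of any three pairwise distinct members have no common point outside `P`. -/
structure Admissible (P : Finset Plane) (F : Finset (Finset Plane)) : Prop where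
  size : ∀ S ∈ F, S ⊆ P ∧ 1 < S.card ∧ S.card < P.card
  pair : ∀ S ∈ F, ∀ T ∈ F, S ≠ T → (hull S ∩ hull T).Nonempty
  triple : ∀ S ∈ F, ∀ T ∈ F, ∀ U ∈ F, S ≠ T → S ≠ U → T ≠ U →
    hull S ∩ hull T ∩ hull U ⊆ (P : Set Plane)

/-- No three points of `P` are collinear. -/
def GeneralPosition (P : Finset Plane) : Prop :=
  ∀ a ∈ P, ∀ b ∈ P, ∀ c ∈ P, a ≠ b → a ≠ c → b ≠ c → ¬ Collinear ℝ ({a, b, c} : Set Plane)

/-- The points of the construction, `i = 0, …, q - 1`. -/
noncomputable def p (q i : ℕ) : Plane := ((i : ℝ) + 1, ((i : ℝ) + 1) ^ 2 + ((q : ℝ) + 1) ^ 2)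

lemma p_inj {q i j : ℕ} (h : p q i = p q j) : i = j := by
  have := congrArg Prod.fst h
  simp [p] at this
  exact this

lemma p_ne_zero (q i : ℕ) : p q i ≠ 0 := by
  intro h
  have := congrArg Prod.fst h
  simp [p] at this
  have h1 : (0 : ℝ) ≤ i := by positivity
  linarith

/-- The linear functional vanishing at `p q i`. -/
noncomputable def g (q i : ℕ) (x : Plane) : ℝ := (p q i).2 * x.1 - (p q i).1 * x.2

lemma g_p (q i j : ℕ) : g q i (p q j) =
    ((j : ℝ) - i) * (((q : ℝ) + 1) ^ 2 - ((i : ℝ) + 1) * ((j : ℝ) + 1)) := by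
  unfold g p
  ring

lemma g_pos {q i j : ℕ} (hi : i < q) (hj : j < q) (h : i < j) : 0 < g q i (p q j) := by
  rw [g_p]
  have h1 : (i : ℝ) + 1 ≤ q := by exact_mod_cast hi
  have h2 : (j : ℝ) + 1 ≤ q := by exact_mod_cast hj
  have h3 : (i : ℝ) < j := by exact_mod_cast h
  have h4 : (0 : ℝ) ≤ i := by positivity
  have h5 : (0 : ℝ) ≤ j := by positivity
  have h6 : ((i : ℝ) + 1) * ((j : ℝ) + 1) ≤ q * q := by
    apply mul_le_mul h1 h2 (by positivity) (by positivity)
  apply mul_pos (by linarith)
  nlinarith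

lemma g_nonpos {q i j : ℕ} (hi : i < q) (hj : j < q) (h : j ≤ i) : g q i (p q j) ≤ 0 := by
  rw [g_p]
  have h1 : (i : ℝ) + 1 ≤ q := by exact_mod_cast hi
  have h2 : (j : ℝ) + 1 ≤ q := by exact_mod_cast hj
  have h3 : (j : ℝ) ≤ i := by exact_mod_cast h
  have h4 : (0 : ℝ) ≤ i := by positivity
  have h5 : (0 : ℝ) ≤ j := by positivity
  have h6 : ((i : ℝ) + 1) * ((j : ℝ) + 1) ≤ q * q := by
    apply mul_le_mul h1 h2 (by positivity) (by positivity)
  apply mul_nonpos_of_nonpos_of_nonneg (by linarith)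
  nlinarith

lemma g_add (q i : ℕ) (a b : ℝ) (x y : Plane) :
    g q i (a • x + b • y) = a * g q i x + b * g q i y := by
  simp only [g, Prod.fst_add, Prod.smul_fst, Prod.snd_add, Prod.smul_snd, smul_eq_mul]
  ring

lemma hull_nonpos {q i : ℕ} {S : Finset Plane}
    (hS : ∀ x ∈ S, g q i x ≤ 0) : ∀ x ∈ hull S, g q i x ≤ 0 := by
  have : hull S ⊆ {x | g q i x ≤ 0} := by
    apply convexHull_min
    · intro x hx; exact hS x hx
    · intro x hx y hy a b ha hb hab
      simp only [Set.mem_ofPred_eq] at hx hy ⊢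
      rw [g_add]
      nlinarith
  exact this

lemma hull_pos {q i : ℕ} {S : Finset Plane}
    (hS : ∀ x ∈ S, x = 0 ∨ 0 < g q i x) : ∀ x ∈ hull S, x = 0 ∨ 0 < g q i x := by
  have : hull S ⊆ {x | x = 0 ∨ 0 < g q i x} := by
    apply convexHull_min
    · intro x hx; exact hS x hx
    · intro x hx y hy a b ha hb hab
      simp only [Set.mem_ofPred_eq] at hx hy ⊢
      rw [g_add]
      rcases hx with rfl | hx
      · rcases hy with rfl | hy
        · left; simp
        · rcases hb.eq_or_lt with rfl | hb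
          · left; simp
          · right
            have : g q i (0 : Plane) = 0 := by simp [g]
            rw [this]
            have := mul_pos hb hy
            linarith
      · rcases hy with rfl | hy
        · rcases ha.eq_or_lt with rfl | ha
          · left; simp
          · right
            have : g q i (0 : Plane) = 0 := by simp [g]
            rw [this]
            have := mul_pos ha hx
            linarith
        · right
          rcases ha.eq_or_lt with rfl | ha
          · have : b = 1 := by linarith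
            subst this
            linarith
          · have h1 := mul_pos ha hx
            have h2 := mul_nonneg hb hy.le
            linarith
  exact this

/-- The segments from the origin. -/
noncomputable def A (q i : ℕ) : Finset Plane := {0, p q i}

/-- The triangles at the origin. -/
noncomputable def B (q j : ℕ) : Finset Plane := {0, p q (2 * j), p q (2 * j + 1)}

/-- The opposite polygon. -/
noncomputable def Q (q : ℕ) : Finset Plane := (range q).image (p q)

lemma A_inter_A {q i j : ℕ} (hi : i < q) (hj : j < q) (h : i < j) :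
    hull (A q i) ∩ hull (A q j) ⊆ {0} := by
  rintro x ⟨h1, h2⟩
  have h3 := hull_nonpos (q := q) (i := i) (S := A q i) (by
    intro y hy
    simp only [A, mem_insert, mem_singleton] at hy
    rcases hy with rfl | rfl
    · simp [g]
    · exact g_nonpos hi hi le_rfl) x h1
  have h4 := hull_pos (q := q) (i := i) (S := A q j) (by
    intro y hy
    simp only [A, mem_insert, mem_singleton] at hy
    rcases hy with rfl | rfl
    · left; rfl
    · right; exact g_pos hi hj h) x h2
  rcases h4 with h4 | h4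
  · exact h4
  · linarith

lemma B_inter_B {q i j : ℕ} (hi : i < q / 2) (hj : j < q / 2) (h : i < j) :
    hull (B q i) ∩ hull (B q j) ⊆ {0} := by
  rintro x ⟨h1, h2⟩
  have h3 := hull_nonpos (q := q) (i := 2 * i + 1) (S := B q i) (by
    intro y hy
    simp only [B, mem_insert, mem_singleton] at hy
    rcases hy with rfl | rfl | rfl
    · simp [g]
    · exact g_nonpos (by omega) (by omega) (by omega)
    · exact g_nonpos (by omega) (by omega) (by omega)) x h1
  have h4 := hull_pos (q := q) (i := 2 * i + 1) (S := B q j) (by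
    intro y hy
    simp only [B, mem_insert, mem_singleton] at hy
    rcases hy with rfl | rfl | rfl
    · left; rfl
    · right; exact g_pos (by omega) (by omega) (by omega)
    · right; exact g_pos (by omega) (by omega) (by omega)) x h2
  rcases h4 with h4 | h4
  · exact h4
  · linarith

lemma A_inter_Q {q i : ℕ} (hi : i < q) : hull (A q i) ∩ hull (Q q) ⊆ {p q i} := by
  rintro x ⟨h1, h2⟩
  have h3 : hull (Q q) ⊆ {x : Plane | ((q : ℝ) + 1) ^ 2 - ((i : ℝ) + 1) ^ 2 + 2 * ((i : ℝ) + 1) * x.1
      ≤ x.2} := by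
    apply convexHull_min
    · intro y hy
      simp only [Q, coe_image, Set.mem_image] at hy
      obtain ⟨j, _, rfl⟩ := hy
      simp only [p, Set.mem_ofPred_eq]
      nlinarith [sq_nonneg ((j : ℝ) - i)]
    · intro y hy z hz a b ha hb hab
      simp only [Set.mem_ofPred_eq, Prod.fst_add, Prod.smul_fst, Prod.snd_add, Prod.smul_snd,
        smul_eq_mul] at hy hz ⊢
      have hb' : b = 1 - a := by linarith
      subst hb'
      nlinarith
  have h4 := h3 h2
  have h5 : x ∈ segment ℝ (0 : Plane) (p q i) := by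
    have : hull (A q i) = segment ℝ (0 : Plane) (p q i) := by
      simp [hull, A, convexHull_pair]
    rw [← this]
    exact h1
  obtain ⟨a, b, ha, hb, hab, rfl⟩ := h5
  simp only [smul_zero, zero_add, Set.mem_ofPred_eq, Prod.smul_fst, Prod.smul_snd, smul_eq_mul, p]
    at h4
  have h6 : (i : ℝ) + 1 ≤ q := by exact_mod_cast hi
  have h7 : (0 : ℝ) ≤ i := by positivity
  have h8 : 0 < ((q : ℝ) + 1) ^ 2 - ((i : ℝ) + 1) ^ 2 := by nlinarith
  have h9 : (1 - b) * (((q : ℝ) + 1) ^ 2 - ((i : ℝ) + 1) ^ 2) ≤ 0 := by nlinarith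
  have h10 : b = 1 := by
    by_contra hcon
    have h11 : 0 < 1 - b := by
      rcases lt_or_eq_of_le (show b ≤ 1 by linarith) with h | h
      · linarith
      · exact absurd h hcon
    nlinarith [mul_pos h11 h8]
  subst h10
  simp

lemma collinear_cross {a b c : Plane} (h : Collinear ℝ ({a, b, c} : Set Plane)) :
    (b.1 - a.1) * (c.2 - a.2) = (c.1 - a.1) * (b.2 - a.2) := by
  rw [collinear_iff_of_mem (p₀ := a) (by simp)] at h
  obtain ⟨v, hv⟩ := h
  obtain ⟨r, hr⟩ := hv b (by simp)
  obtain ⟨s, hs⟩ := hv c (by simp)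
  rw [hr, hs]
  simp only [vadd_eq_add, Prod.fst_add, Prod.smul_fst, Prod.snd_add, Prod.smul_snd, smul_eq_mul]
  ring

/-- The whole set of points. -/
noncomputable def P (q : ℕ) : Finset Plane := insert 0 (Q q)

lemma mem_P {q : ℕ} {x : Plane} : x ∈ P q ↔ x = 0 ∨ ∃ i, i < q ∧ p q i = x := by
  simp [P, Q]

lemma cross_ne {q i j : ℕ} (hi : i < q) (hj : j < q) (h : i ≠ j) :
    (p q i).1 * (p q j).2 ≠ (p q j).1 * (p q i).2 := by
  intro heq
  have h1 : g q i (p q j) = 0 := by unfold g; linarith
  have h2 : g q j (p q i) = 0 := by unfold g; linarith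
  rcases lt_or_gt_of_ne h with h3 | h3
  · exact (g_pos hi hj h3).ne' h1
  · exact (g_pos hj hi h3).ne' h2

lemma genPos (q : ℕ) : GeneralPosition (P q) := by
  intro a ha b hb c hc hab hac hbc hcol
  have h := collinear_cross hcol
  rw [mem_P] at ha hb hc
  rcases ha with rfl | ⟨i, hi, rfl⟩
  · rcases hb with rfl | ⟨j, hj, rfl⟩
    · exact hab rfl
    · rcases hc with rfl | ⟨k, hk, rfl⟩
      · exact hac rfl
      · simp only [Prod.fst_zero, Prod.snd_zero, sub_zero] at h
        exact cross_ne hj hk (fun e => hbc (by rw [e])) h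
  · rcases hb with rfl | ⟨j, hj, rfl⟩
    · rcases hc with rfl | ⟨k, hk, rfl⟩
      · exact hbc rfl
      · simp only [Prod.fst_zero, Prod.snd_zero] at h
        exact cross_ne hi hk (fun e => hac (by rw [e])) (by linarith)
    · rcases hc with rfl | ⟨k, hk, rfl⟩
      · simp only [Prod.fst_zero, Prod.snd_zero] at h
        exact cross_ne hi hj (fun e => hab (by rw [e])) (by linarith)
      · have hij : (i : ℝ) - j ≠ 0 := sub_ne_zero.2 (by exact_mod_cast fun e => hab (by rw [e]))
        have hik : (i : ℝ) - k ≠ 0 := sub_ne_zero.2 (by exact_mod_cast fun e => hac (by rw [e]))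
        have hjk : (j : ℝ) - k ≠ 0 := sub_ne_zero.2 (by exact_mod_cast fun e => hbc (by rw [e]))
        have : ((i : ℝ) - j) * (i - k) * (j - k) = 0 := by
          simp only [p] at h
          linarith
        simp [hij, hik, hjk] at this

/-- The family. -/
noncomputable def F (q : ℕ) : Finset (Finset Plane) :=
  insert (Q q) ((range q).image (A q) ∪ (range (q / 2)).image (B q))

lemma mem_F {q : ℕ} {S : Finset Plane} : S ∈ F q ↔
    S = Q q ∨ (∃ i, i < q ∧ A q i = S) ∨ ∃ j, j < q / 2 ∧ B q j = S := by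
  simp [F]

lemma card_A (q i : ℕ) : (A q i).card = 2 := by
  unfold A
  exact card_pair (p_ne_zero q i).symm

lemma card_B (q j : ℕ) : (B q j).card = 3 := by
  unfold B
  rw [card_eq_three]
  refine ⟨0, p q (2 * j), p q (2 * j + 1), (p_ne_zero _ _).symm, (p_ne_zero _ _).symm, ?_, rfl⟩
  intro h
  have := p_inj h
  omega

lemma card_Q (q : ℕ) : (Q q).card = q := by
  unfold Q
  rw [card_image_of_injective _ (fun _ _ h => p_inj h), card_range]

lemma zero_notMem_Q (q : ℕ) : (0 : Plane) ∉ Q q := by
  simp only [Q, mem_image, not_exists, not_and]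
  intro i _ h
  exact p_ne_zero q i h

lemma card_P (q : ℕ) : (P q).card = q + 1 := by
  unfold P
  rw [card_insert_of_notMem (zero_notMem_Q q), card_Q]

lemma A_inj (q : ℕ) : Function.Injective (A q) := by
  intro i j h
  have h1 : p q i ∈ A q j := by rw [← h]; simp [A]
  simp only [A, mem_insert, mem_singleton] at h1
  rcases h1 with h1 | h1
  · exact absurd h1 (p_ne_zero q i)
  · exact p_inj h1

lemma B_inj (q : ℕ) : Function.Injective (B q) := by
  intro i j h
  have h1 : p q (2 * i) ∈ B q j := by rw [← h]; simp [B]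
  simp only [B, mem_insert, mem_singleton] at h1
  rcases h1 with h1 | h1 | h1
  · exact absurd h1 (p_ne_zero q _)
  · have := p_inj h1
    omega
  · have := p_inj h1
    omega

lemma card_F (q : ℕ) : (F q).card = q + 1 + q / 2 := by
  classical
  unfold F
  rw [card_insert_of_notMem, card_union_of_disjoint, card_image_of_injective _ (A_inj q),
    card_image_of_injective _ (B_inj q), card_range, card_range]
  · ring
  · rw [disjoint_left]
    intro S h1 h2
    obtain ⟨i, _, rfl⟩ := mem_image.1 h1
    obtain ⟨j, _, h⟩ := mem_image.1 h2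
    have := congrArg Finset.card h
    rw [card_A, card_B] at this
    omega
  · intro h
    rw [mem_union, mem_image, mem_image] at h
    rcases h with ⟨i, _, h⟩ | ⟨i, _, h⟩
    · exact zero_notMem_Q q (by rw [← h]; simp [A])
    · exact zero_notMem_Q q (by rw [← h]; simp [B])

lemma sub_hull {S : Finset Plane} {x : Plane} (h : x ∈ S) : x ∈ hull S :=
  subset_convexHull ℝ _ h

lemma p_mem_Q {q i : ℕ} (hi : i < q) : p q i ∈ Q q := mem_image_of_mem _ (mem_range.2 hi)

lemma A_A {q i j : ℕ} (hi : i < q) (hj : j < q) (h : A q i ≠ A q j) :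
    hull (A q i) ∩ hull (A q j) ⊆ (P q : Set Plane) := by
  have hij : i ≠ j := fun e => h (by rw [e])
  have h0 : ({0} : Set Plane) ⊆ (P q : Set Plane) := by simp [P]
  rcases lt_or_gt_of_ne hij with h1 | h1
  · exact (A_inter_A hi hj h1).trans h0
  · rw [Set.inter_comm]
    exact (A_inter_A hj hi h1).trans h0

lemma B_B {q i j : ℕ} (hi : i < q / 2) (hj : j < q / 2) (h : B q i ≠ B q j) :
    hull (B q i) ∩ hull (B q j) ⊆ (P q : Set Plane) := by
  have hij : i ≠ j := fun e => h (by rw [e])
  have h0 : ({0} : Set Plane) ⊆ (P q : Set Plane) := by simp [P]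
  rcases lt_or_gt_of_ne hij with h1 | h1
  · exact (B_inter_B hi hj h1).trans h0
  · rw [Set.inter_comm]
    exact (B_inter_B hj hi h1).trans h0

lemma A_Q {q i : ℕ} (hi : i < q) : hull (A q i) ∩ hull (Q q) ⊆ (P q : Set Plane) := by
  refine (A_inter_Q hi).trans ?_
  simp only [Set.singleton_subset_iff, mem_coe]
  exact mem_insert_of_mem (p_mem_Q hi)

lemma admissible {q : ℕ} (hq : 3 ≤ q) : Admissible (P q) (F q) := by
  classical
  refine ⟨?_, ?_, ?_⟩
  · intro S hS
    rw [card_P]
    rcases mem_F.1 hS with rfl | ⟨i, hi, rfl⟩ | ⟨j, hj, rfl⟩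
    · refine ⟨subset_insert _ _, ?_, ?_⟩ <;> rw [card_Q] <;> omega
    · refine ⟨?_, ?_, ?_⟩
      · intro x hx
        simp only [A, mem_insert, mem_singleton] at hx
        rw [mem_P]
        rcases hx with rfl | rfl
        · exact Or.inl rfl
        · exact Or.inr ⟨i, hi, rfl⟩
      · rw [card_A]; norm_num
      · rw [card_A]; omega
    · refine ⟨?_, ?_, ?_⟩
      · intro x hx
        simp only [B, mem_insert, mem_singleton] at hx
        rw [mem_P]
        rcases hx with rfl | rfl | rfl
        · exact Or.inl rfl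
        · exact Or.inr ⟨2 * j, by omega, rfl⟩
        · exact Or.inr ⟨2 * j + 1, by omega, rfl⟩
      · rw [card_B]; norm_num
      · rw [card_B]; omega
  · have hA : ∀ i, (0 : Plane) ∈ hull (A q i) := fun i => sub_hull (by simp [A])
    have hB : ∀ i, (0 : Plane) ∈ hull (B q i) := fun i => sub_hull (by simp [B])
    have hAp : ∀ i, p q i ∈ hull (A q i) := fun i => sub_hull (by simp [A])
    have hBp : ∀ i, p q (2 * i) ∈ hull (B q i) := fun i => sub_hull (by simp [B])
    have hQp : ∀ i, i < q → p q i ∈ hull (Q q) := fun i hi => sub_hull (p_mem_Q hi)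
    intro S hS T hT hne
    rcases mem_F.1 hS with rfl | ⟨i, hi, rfl⟩ | ⟨i, hi, rfl⟩ <;>
    rcases mem_F.1 hT with rfl | ⟨j, hj, rfl⟩ | ⟨j, hj, rfl⟩
    · exact absurd rfl hne
    · exact ⟨p q j, hQp j hj, hAp j⟩
    · exact ⟨p q (2 * j), hQp _ (by omega), hBp j⟩
    · exact ⟨p q i, hAp i, hQp i hi⟩
    · exact ⟨0, hA i, hA j⟩
    · exact ⟨0, hA i, hB j⟩
    · exact ⟨p q (2 * i), hBp i, hQp _ (by omega)⟩
    · exact ⟨0, hB i, hA j⟩
    · exact ⟨0, hB i, hB j⟩
  · intro S hS T hT U hU h1 h2 h3
    have l12 : ∀ X Y Z : Set Plane, X ∩ Y ⊆ (P q : Set Plane) → X ∩ Y ∩ Z ⊆ (P q : Set Plane) :=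
      fun X Y Z h => Set.inter_subset_left.trans h
    have l13 : ∀ X Y Z : Set Plane, X ∩ Z ⊆ (P q : Set Plane) → X ∩ Y ∩ Z ⊆ (P q : Set Plane) :=
      fun X Y Z h x hx => h ⟨hx.1.1, hx.2⟩
    have l23 : ∀ X Y Z : Set Plane, Y ∩ Z ⊆ (P q : Set Plane) → X ∩ Y ∩ Z ⊆ (P q : Set Plane) :=
      fun X Y Z h x hx => h ⟨hx.1.2, hx.2⟩
    have QA : ∀ i, i < q → hull (Q q) ∩ hull (A q i) ⊆ (P q : Set Plane) := by
      intro i hi
      rw [Set.inter_comm]
      exact A_Q hi
    rcases mem_F.1 hS with rfl | ⟨i, hi, rfl⟩ | ⟨i, hi, rfl⟩ <;>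
    rcases mem_F.1 hT with rfl | ⟨j, hj, rfl⟩ | ⟨j, hj, rfl⟩ <;>
    rcases mem_F.1 hU with rfl | ⟨k, hk, rfl⟩ | ⟨k, hk, rfl⟩
    · exact absurd rfl h1
    · exact absurd rfl h1
    · exact absurd rfl h1
    · exact absurd rfl h2
    · exact l23 _ _ _ (A_A hj hk h3)
    · exact l12 _ _ _ (QA j hj)
    · exact absurd rfl h2
    · exact l13 _ _ _ (QA k hk)
    · exact l23 _ _ _ (B_B hj hk h3)
    · exact absurd rfl h3
    · exact l12 _ _ _ (A_Q hi)
    · exact l12 _ _ _ (A_Q hi)
    · exact l12 _ _ _ (A_A hi hj h1)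
    · exact l12 _ _ _ (A_A hi hj h1)
    · exact l12 _ _ _ (A_A hi hj h1)
    · exact l13 _ _ _ (A_Q hi)
    · exact l13 _ _ _ (A_A hi hk h2)
    · exact l23 _ _ _ (B_B hj hk h3)
    · exact absurd rfl h3
    · exact l23 _ _ _ (QA k hk)
    · exact l13 _ _ _ (B_B hi hk h2)
    · exact l23 _ _ _ (A_Q hj)
    · exact l23 _ _ _ (A_A hj hk h3)
    · exact l13 _ _ _ (B_B hi hk h2)
    · exact l12 _ _ _ (B_B hi hj h1)
    · exact l12 _ _ _ (B_B hi hj h1)
    · exact l12 _ _ _ (B_B hi hj h1)

/-- For every `n ≥ 4` there are `n` points in the plane, no three collinear, and an admissible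
family of `n + ⌊(n - 1) / 2⌋ > n` subsets. In particular it is not true that every admissible family
on `n` points has at most `n` members. -/
theorem result :
    (∀ n : ℕ, 4 ≤ n → ∃ P : Finset Plane, P.card = n ∧ GeneralPosition P ∧
      ∃ F : Finset (Finset Plane), Admissible P F ∧ F.card = n + (n - 1) / 2) ∧
    ¬ ∀ (P : Finset Plane) (F : Finset (Finset Plane)), Admissible P F → F.card ≤ P.card := by
  have key : ∀ n : ℕ, 4 ≤ n → ∃ P : Finset Plane, P.card = n ∧ GeneralPosition P ∧
      ∃ F : Finset (Finset Plane), Admissible P F ∧ F.card = n + (n - 1) / 2 := by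
    intro n hn
    obtain ⟨q, rfl⟩ : ∃ q, n = q + 1 := ⟨n - 1, by omega⟩
    refine ⟨P q, card_P q, genPos q, F q, admissible (by omega), ?_⟩
    rw [card_F]
    simp
  refine ⟨key, fun h => ?_⟩
  obtain ⟨P, h1, _, F, h2, h3⟩ := key 4 le_rfl
  have := h P F h2
  omega

end Pool.Agent.Results.MP_a31168_co.ThreeHalves
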